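import Mathlib

/-!
# Pieces for `MP_e0aece_nt`: `chi x ≤ x ^ (1/10 + ε)` for the hypergraph of Carmichael numbers

Three independent pieces: `COL`, `DEG3`, `DEGK`.
-/

set_option autoImplicit false

namespace Pool.Agent.W2helper16.RW

/-- Carmichael numbers, in Korselt's form. -/
def Carm (n : ℕ) : Prop :=
  1 < n ∧ ¬ n.Prime ∧ Squarefree n ∧ ∀ p : ℕ, p.Prime → p ∣ n → p - 1 ∣ n - 1

/-- `InBox M r k n`: `n` is a Carmichael number with exactly `k` prime factors, all of them in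
`[M, 2M)`, and `r` is one of them. -/
def InBox (M r k n : ℕ) : Prop :=
  Carm n ∧ r ∣ n ∧ n.primeFactors.card = k ∧ ∀ p : ℕ, p.Prime → p ∣ n → M ≤ p ∧ p < 2 * M

/-- COL: hypergraph colouring by Rosenfeld's counting argument (taken by helper16). -/
def COL : Prop := ∀ (V : Finset ℕ) (E : Finset (Finset ℕ)) (K : ℕ) (β : ℝ), 0 < β → 2 * β ≤ K →
  (∀ f ∈ E, 2 ≤ f.card ∧ f ⊆ V) →
  (∀ v ∈ V, ∑ f ∈ E with v ∈ f, (β ^ (f.card - 1))⁻¹ ≤ 1) →
  ∃ c : ℕ → ℕ, (∀ v, c v < K) ∧ ∀ f ∈ E, ∃ u ∈ f, ∃ v ∈ f, c u ≠ c v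

/-- DEG3: three prime factors. Proof. Let `n = p q r ∈ S`, and `g = gcd (p - 1) (r - 1)`. As
`g ∣ p - 1 ∣ n - 1` and `p ≡ r ≡ 1 (mod g)` also `g ∣ q - 1`; in the same way all three pairwise
gcd's of `p - 1, q - 1, r - 1` are `g`. Write `p - 1 = g a`, `q - 1 = g b`, `r - 1 = g c` with
`a, b, c` pairwise coprime. `g a ∣ n - 1`, `g b ∣ n - 1`, `g c ∣ n - 1` give
`a ∣ (n - 1) / g = g^2 abc + g (ab + bc + ca) + (a + b + c)`, same for `b`, `c`, so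
`a b c ∣ g (ab + bc + ca) + (a + b + c)`, which is positive; hence with `m = min a b c`:
`a b c ≤ 3 (g + 1) a b c / m`, `m ≤ 3 (g + 1) ≤ 6 g`. As `g m ≥ M - 1` this gives
`6 g ^ 2 ≥ M - 1`, `g ^ 2 ≥ M / 8` (`M ≥ 4`), and `(g a) ^ 2 < 4 M ^ 2` gives `a ^ 2 < 32 M`,
`a ≤ 6 (sqrt M + 1)`. Finally `n` is determined by `(g, a, q)`: `g ∣ r - 1` has at most `T`
choices, `a` at most `6 (sqrt M + 1)`, and given `g, a` (so `p = g a + 1`) `q - 1` is a divisor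
of `p r - 1 ≤ 4 M ^ 2` (`n - 1 ≡ p r - 1 (mod q - 1)`), at most `T` choices. -/
def DEG3 : Prop := ∀ M T r : ℕ, 4 ≤ M → (∀ m : ℕ, 0 < m → m ≤ 4 * M ^ 2 → m.divisors.card ≤ T) →
  r.Prime → M ≤ r → r < 2 * M → ∀ S : Finset ℕ, (∀ n ∈ S, InBox M r 3 n) →
  S.card ≤ 6 * T ^ 2 * (Nat.sqrt M + 1)

/-- DEGK: at least four prime factors. Proof. Let `n ∈ S` and `p ≠ r` a prime factor of `n`,
`n = r p P`, `P < (2 M) ^ (k - 2)`. Then `P p ≡ 1 (mod r - 1)` and `P r ≡ 1 (mod p - 1)`, so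
`P` lies in one residue class modulo `l = lcm (r - 1) (p - 1)` (two values `P, P'` for the same
`p` are congruent modulo `r - 1`, since `p` is invertible there, and modulo `p - 1`). Hence for
given `p` there are at most `(2 M) ^ (k - 2) / l + 1` values of `P`. Now
`l = (r - 1) (p - 1) / d` with `d = gcd (r - 1) (p - 1)`, and `(r - 1) (p - 1) ≥ M ^ 2 / 2` (as
`M ≥ 4`), so this is at most `1 + 2 ^ (k - 1) M ^ (k - 4) d`. Summing over the at most `M`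
values of `p` in `[M, 2M)`, with
`∑_{1 ≤ m ≤ 2M} gcd (r - 1) m ≤ ∑_{d ∣ r - 1} d * (2 M / d) ≤ 2 M T`, the total is at most
`M + 2 ^ k M ^ (k - 3) T`. (`n` is determined by `(p, P)`.) -/
def DEGK : Prop := ∀ M T r k : ℕ, 4 ≤ M → 4 ≤ k → (r - 1).divisors.card ≤ T →
  r.Prime → M ≤ r → r < 2 * M → ∀ S : Finset ℕ, (∀ n ∈ S, InBox M r k n) →
  S.card ≤ M + 2 ^ k * M ^ (k - 3) * T

end Pool.Agent.W2helper16.RW
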