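import Mathlib
import Pool.Agent.W2helper16.RW.Stm

/-!
Assembly: the colouring of the primes.
-/

set_option autoImplicit false

namespace Pool.Agent.W2helper16.RW

open Finset

/-- The primes can be coloured with `K` colours so that no Carmichael number up to `x` has all
its prime factors of one colour. -/
def Colourable (x K : ℕ) : Prop :=
  ∃ c : ℕ → ℕ, (∀ p, c p < K) ∧ ∀ n : ℕ, n ≤ x → Carm n →
    ∃ p q : ℕ, p.Prime ∧ q.Prime ∧ p ∣ n ∧ q ∣ n ∧ c p ≠ c q

/-- Carmichael numbers up to `X` with all prime factors in `[M, 2M)`. -/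
noncomputable def Bx (X M : ℕ) : Finset ℕ := by
  classical
  exact (Icc 1 X).filter (fun n => Carm n ∧ ∀ p : ℕ, p.Prime → p ∣ n → M ≤ p ∧ p < 2 * M)

/-- The edges. -/
noncomputable def Ed (X M : ℕ) : Finset (Finset ℕ) := (Bx X M).image Nat.primeFactors

lemma mem_Bx {X M n : ℕ} : n ∈ Bx X M ↔ (1 ≤ n ∧ n ≤ X) ∧ Carm n ∧
    ∀ p : ℕ, p.Prime → p ∣ n → M ≤ p ∧ p < 2 * M := by
  unfold Bx
  simp [mem_filter, mem_Icc]

lemma carm_two {n : ℕ} (h : Carm n) : ∃ p q : ℕ, p.Prime ∧ q.Prime ∧ p ∣ n ∧ q ∣ n ∧ p ≠ q := by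
  obtain ⟨h1, h2, h3, -⟩ := h
  have hp := Nat.minFac_prime (n := n) (by omega)
  obtain ⟨m, hm⟩ := Nat.minFac_dvd n
  have hm1 : m ≠ 1 := by
    rintro rfl
    apply h2
    rw [hm, mul_one]
    exact hp
  have hq := Nat.minFac_prime hm1
  refine ⟨n.minFac, m.minFac, hp, hq, Nat.minFac_dvd n, ?_, ?_⟩
  · rw [hm]; exact (Nat.minFac_dvd m).mul_left _
  · intro he
    have h4 : n.minFac * n.minFac ∣ n := by
      conv_rhs => rw [hm]
      exact mul_dvd_mul_left _ (he ▸ Nat.minFac_dvd m)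
    have := h3 _ h4
    rw [Nat.isUnit_iff] at this
    exact hp.one_lt.ne' this

lemma carm_card {n : ℕ} (h : Carm n) : 3 ≤ n.primeFactors.card := by
  obtain ⟨p, q, hp, hq, hpn, hqn, hne⟩ := carm_two h
  obtain ⟨h1, h2, h3, h4⟩ := h
  by_contra hlt
  have hn0 : n ≠ 0 := by omega
  have hsub : ({p, q} : Finset ℕ) ⊆ n.primeFactors := by
    intro a ha
    rw [mem_insert, mem_singleton] at ha
    rcases ha with rfl | rfl
    · exact Nat.mem_primeFactors.mpr ⟨hp, hpn, hn0⟩
    · exact Nat.mem_primeFactors.mpr ⟨hq, hqn, hn0⟩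
  have hc : ({p, q} : Finset ℕ).card = 2 := card_pair hne
  have heq : ({p, q} : Finset ℕ) = n.primeFactors := eq_of_subset_of_card_le hsub (by omega)
  have hprod : n = p * q := by
    rw [← Nat.prod_primeFactors_of_squarefree h3, ← heq, prod_pair hne]
  have key : ∀ a b : ℕ, a.Prime → b.Prime → n = a * b → a - 1 ∣ b - 1 := by
    intro a b ha hb hab
    have h5 := h4 a ha ⟨b, hab⟩
    have ha1 := ha.one_lt
    have hb1 := hb.one_lt
    have h6 : n - 1 = (a - 1) * b + (b - 1) := by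
      rw [hab]
      obtain ⟨a', rfl⟩ : ∃ a', a = a' + 1 := ⟨a - 1, by omega⟩
      obtain ⟨b', rfl⟩ : ∃ b', b = b' + 1 := ⟨b - 1, by omega⟩
      simp only [Nat.add_sub_cancel]
      have : (a' + 1) * (b' + 1) = a' * (b' + 1) + b' + 1 := by ring
      omega
    rw [h6] at h5
    exact (Nat.dvd_add_right (dvd_mul_right _ _)).mp h5
  have k1 := key p q hp hq hprod
  have k2 := key q p hq hp (by rw [hprod, mul_comm])
  have k3 := Nat.dvd_antisymm k1 k2
  have := hp.one_lt
  have := hq.one_lt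
  omega

lemma pow_card_le {X M n : ℕ} (h : n ∈ Bx X M) : M ^ n.primeFactors.card ≤ X := by
  rw [mem_Bx] at h
  obtain ⟨⟨h1, h2⟩, ⟨-, -, h3, -⟩, h4⟩ := h
  refine le_trans ?_ h2
  conv_rhs => rw [← Nat.prod_primeFactors_of_squarefree h3]
  apply Finset.pow_card_le_prod
  intro p hp
  exact (h4 p (Nat.prime_of_mem_primeFactors hp) (Nat.dvd_of_mem_primeFactors hp)).1

/-- Combination of the boxes. -/
lemma combine (X Y K : ℕ) (hK : 0 < K)
    (H : ∀ e : ℕ, Y < 2 * 2 ^ e → ∃ c : ℕ → ℕ, (∀ v, c v < K) ∧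
      ∀ f ∈ Ed X (2 ^ e), ∃ u ∈ f, ∃ v ∈ f, c u ≠ c v) :
    Colourable X (Y + (Nat.log 2 X + 1) * K) := by
  classical
  have H' : ∀ e : ℕ, ∃ c : ℕ → ℕ, Y < 2 * 2 ^ e → ((∀ v, c v < K) ∧
      ∀ f ∈ Ed X (2 ^ e), ∃ u ∈ f, ∃ v ∈ f, c u ≠ c v) := by
    intro e
    by_cases he : Y < 2 * 2 ^ e
    · obtain ⟨c, hc⟩ := H e he
      exact ⟨c, fun _ => hc⟩
    · exact ⟨fun _ => 0, fun h => absurd h he⟩
  choose c hc using H'
  have hlog : ∀ p : ℕ, 0 < p → 2 ^ Nat.log 2 p ≤ p ∧ p < 2 * 2 ^ Nat.log 2 p := by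
    intro p hp
    refine ⟨Nat.pow_log_le_self 2 (by omega), ?_⟩
    have := Nat.lt_pow_succ_log_self (b := 2) (by norm_num) p
    rw [pow_succ] at this
    omega
  have hYp : ∀ p : ℕ, Y ≤ p → 0 < p → Y < 2 * 2 ^ Nat.log 2 p := by
    intro p h1 h2
    have := (hlog p h2).2
    omega
  refine ⟨fun p => if p < Y then p else if X < p then 0 else
    Y + (Nat.log 2 p) * K + (if p = 0 then 0 else c (Nat.log 2 p) p), ?_, ?_⟩
  · intro p
    dsimp only
    have hpos : 0 < (Nat.log 2 X + 1) * K := by positivity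
    split_ifs with h1 h2 h3
    · omega
    · omega
    · subst h3
      simp only [Nat.log_zero_right, zero_mul]
      omega
    · have h4 : Nat.log 2 p ≤ Nat.log 2 X := Nat.log_mono_right (by omega)
      have h5 := (hc (Nat.log 2 p) (hYp p (by omega) (by omega))).1 p
      have h6 : (Nat.log 2 p + 1) * K ≤ (Nat.log 2 X + 1) * K := Nat.mul_le_mul_right _ (by omega)
      have h7 : (Nat.log 2 p + 1) * K = Nat.log 2 p * K + K := by ring
      omega
  · intro n hn hcarm
    by_contra hcon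
    push Not at hcon
    obtain ⟨p0, q0, hp0, hq0, hp0n, hq0n, hne⟩ := carm_two hcarm
    have hn0 : 0 < n := by have := hcarm.1; omega
    have hle : ∀ p : ℕ, p ∣ n → p ≤ X := fun p hp => (Nat.le_of_dvd hn0 hp).trans hn
    set C : ℕ → ℕ := fun p => if p < Y then p else if X < p then 0 else
      Y + (Nat.log 2 p) * K + (if p = 0 then 0 else c (Nat.log 2 p) p) with hC
    have Csmall : ∀ p, p < Y → C p = p := by
      intro p hp
      simp [hC, hp]
    have Cbig : ∀ p : ℕ, p.Prime → p ∣ n → Y ≤ p → C p = Y + (Nat.log 2 p) * K + c (Nat.log 2 p) p := by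
      intro p hp hpn hY
      have h1 : ¬ p < Y := by omega
      have h2 : ¬ X < p := by have := hle p hpn; omega
      have h3 : p ≠ 0 := hp.ne_zero
      simp [hC, h1, h2, h3]
    have hall : ∀ p : ℕ, p.Prime → p ∣ n → Y ≤ p := by
      intro p hp hpn
      by_contra hlt
      have hlt : p < Y := by omega
      have : ∀ q : ℕ, q.Prime → q ∣ n → q = p := by
        intro q hq hqn
        have h1 : C p = C q := hcon p q hp hq hpn hqn
        rw [Csmall p hlt] at h1
        by_cases hqY : q < Y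
        · rw [Csmall q hqY] at h1; exact h1.symm
        · rw [Cbig q hq hqn (by omega)] at h1
          omega
      exact hne ((this p0 hp0 hp0n).trans (this q0 hq0 hq0n).symm)
    set e := Nat.log 2 p0 with he
    have hsplit : ∀ p : ℕ, p.Prime → p ∣ n → Nat.log 2 p = e ∧ c e p = c e p0 := by
      intro p hp hpn
      have h1 : C p = C p0 := hcon p p0 hp hp0 hpn hp0n
      rw [Cbig p hp hpn (hall p hp hpn), Cbig p0 hp0 hp0n (hall p0 hp0 hp0n)] at h1
      have h2 := (hc (Nat.log 2 p) (hYp p (hall p hp hpn) hp.pos)).1 p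
      have h3 := (hc (Nat.log 2 p0) (hYp p0 (hall p0 hp0 hp0n) hp0.pos)).1 p0
      have h4 : Nat.log 2 p = Nat.log 2 p0 := by
        have h5 : (Nat.log 2 p * K + c (Nat.log 2 p) p) / K = (Nat.log 2 p0 * K + c (Nat.log 2 p0) p0) / K := by
          congr 1
          omega
        rw [mul_comm, Nat.mul_add_div hK, Nat.div_eq_of_lt h2, mul_comm, Nat.mul_add_div hK,
          Nat.div_eq_of_lt h3] at h5
        omega
      refine ⟨h4, ?_⟩
      rw [h4] at h1
      rw [← he] at h1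
      omega
    have hmem : n.primeFactors ∈ Ed X (2 ^ e) := by
      unfold Ed
      refine mem_image_of_mem _ ?_
      rw [mem_Bx]
      refine ⟨⟨hn0, hn⟩, hcarm, fun p hp hpn => ?_⟩
      have := hlog p hp.pos
      rw [(hsplit p hp hpn).1] at this
      exact this
    obtain ⟨u, hu, v, hv, huv⟩ := (hc e (hYp p0 (hall p0 hp0 hp0n) hp0.pos)).2 _ hmem
    apply huv
    rw [(hsplit u (Nat.prime_of_mem_primeFactors hu) (Nat.dvd_of_mem_primeFactors hu)).2,
      (hsplit v (Nat.prime_of_mem_primeFactors hv) (Nat.dvd_of_mem_primeFactors hv)).2]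

end Pool.Agent.W2helper16.RW
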