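import Mathlib
import Pool.Agent.W2helper16.RW.Asm

/-!
Assembly: the degree condition.
-/

set_option autoImplicit false

namespace Pool.Agent.W2helper16.RW

open Finset

/-- `k = 3`. -/
lemma bound3 {z w : ℝ} {T M N : ℕ} (hz : (108 : ℝ) ^ 3 ≤ z) (hw : 192 ≤ w) (hT : (T : ℝ) ≤ w)
    (hM : (M : ℝ) ^ 3 ≤ z ^ 10) (hM1 : 1 ≤ M) (hN : N ≤ 6 * T ^ 2 * (Nat.sqrt M + 1)) :
    (N : ℝ) * ((z * w) ^ 2)⁻¹ ≤ 1 / 9 := by
  have hz0 : 0 < z := by linarith [show (0:ℝ) < 108 ^ 3 by norm_num]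
  have hw0 : 0 < w := by linarith
  set s := Nat.sqrt M with hs
  have hs1 : 1 ≤ s := by
    rw [hs]
    exact Nat.sqrt_pos.mpr hM1
  have hs2 : s ^ 2 ≤ M := Nat.sqrt_le' M
  have hs3 : ((s : ℝ)) ^ 6 ≤ z ^ 10 := by
    have h1 : (s ^ 2) ^ 3 ≤ M ^ 3 := Nat.pow_le_pow_left hs2 3
    have h2 : (((s ^ 2) ^ 3 : ℕ) : ℝ) ≤ ((M ^ 3 : ℕ) : ℝ) := by exact_mod_cast h1
    push_cast at h2
    calc (s : ℝ) ^ 6 = ((s : ℝ) ^ 2) ^ 3 := by ring
      _ ≤ _ := h2.trans hM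
  have hs4 : 108 * (s : ℝ) ≤ z ^ 2 := by
    have h1 : (108 * (s : ℝ)) ^ 6 ≤ (z ^ 2) ^ 6 := by
      calc (108 * (s : ℝ)) ^ 6 = (108 ^ 3) ^ 2 * (s : ℝ) ^ 6 := by ring
        _ ≤ z ^ 2 * z ^ 10 := by
          apply mul_le_mul _ hs3 (by positivity) (by positivity)
          exact pow_le_pow_left₀ (by positivity) hz 2
        _ = (z ^ 2) ^ 6 := by ring
    exact le_of_pow_le_pow_left₀ (by norm_num) (by positivity) h1
  have hN' : (N : ℝ) ≤ 12 * w ^ 2 * s := by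
    have h1 : (N : ℝ) ≤ ((6 * T ^ 2 * (s + 1) : ℕ) : ℝ) := by exact_mod_cast hN
    push_cast at h1
    have h2 : (T : ℝ) ^ 2 ≤ w ^ 2 := pow_le_pow_left₀ (by positivity) hT 2
    have h3 : (1 : ℝ) ≤ s := by exact_mod_cast hs1
    calc (N : ℝ) ≤ 6 * (T : ℝ) ^ 2 * (s + 1) := h1
      _ ≤ 6 * w ^ 2 * (2 * s) := by
        apply mul_le_mul _ (by linarith) (by positivity) (by positivity)
        linarith
      _ = _ := by ring
  rw [← div_eq_mul_inv, div_le_iff₀ (by positivity)]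
  calc (N : ℝ) ≤ 12 * w ^ 2 * s := hN'
    _ = w ^ 2 * (108 * s) / 9 := by ring
    _ ≤ w ^ 2 * z ^ 2 / 9 := by
      apply div_le_div_of_nonneg_right _ (by norm_num)
      exact mul_le_mul_of_nonneg_left hs4 (by positivity)
    _ = _ := by ring

/-- `4 ≤ k ≤ 11`. -/
lemma boundk {z w : ℝ} {T M N k : ℕ} (hz : (108 : ℝ) ^ 3 ≤ z) (hw : 192 ≤ w) (hT : (T : ℝ) ≤ w)
    (hT1 : 1 ≤ T) (hk : 4 ≤ k) (hk2 : k ≤ 11)
    (hM : (M : ℝ) ^ k ≤ z ^ 10) (hM1 : 1 ≤ M) (hN : N ≤ M + 2 ^ k * M ^ (k - 3) * T) :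
    (N : ℝ) * ((z * w) ^ (k - 1))⁻¹ ≤ 1 / 9 := by
  have hz0 : 0 < z := by linarith [show (0:ℝ) < 108 ^ 3 by norm_num]
  have hz1 : 1 ≤ z := by linarith [show (1:ℝ) < 108 ^ 3 by norm_num]
  have hw0 : 0 < w := by linarith
  have hMr : (1 : ℝ) ≤ M := by exact_mod_cast hM1
  obtain ⟨j, rfl⟩ : ∃ j, k = j + 4 := ⟨k - 4, by omega⟩
  have e1 : j + 4 - 3 = j + 1 := by omega
  have e2 : j + 4 - 1 = j + 3 := by omega
  rw [e1] at hN
  rw [e2]
  have hMj : (M : ℝ) ^ (j + 1) ≤ z ^ (j + 3) := by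
    have h1 : ((M : ℝ) ^ (j + 1)) ^ (j + 4) ≤ (z ^ (j + 3)) ^ (j + 4) := by
      calc ((M : ℝ) ^ (j + 1)) ^ (j + 4) = ((M : ℝ) ^ (j + 4)) ^ (j + 1) := by
            rw [← pow_mul, ← pow_mul, mul_comm]
        _ ≤ (z ^ 10) ^ (j + 1) := pow_le_pow_left₀ (by positivity) hM _
        _ = z ^ (10 * (j + 1)) := by rw [← pow_mul]
        _ ≤ z ^ ((j + 3) * (j + 4)) := by
          apply pow_le_pow_right₀ hz1
          have : j = 0 ∨ j = 1 ∨ j = 2 ∨ 3 ≤ j := by omega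
          rcases this with rfl | rfl | rfl | h
          · norm_num
          · norm_num
          · norm_num
          · nlinarith
        _ = _ := by rw [← pow_mul]
    exact le_of_pow_le_pow_left₀ (by omega) (by positivity) h1
  have hN' : (N : ℝ) ≤ 4096 * w * z ^ (j + 3) := by
    have h1 : (N : ℝ) ≤ ((M + 2 ^ (j + 4) * M ^ (j + 1) * T : ℕ) : ℝ) := by exact_mod_cast hN
    push_cast at h1
    have h2 : (2 : ℝ) ^ (j + 4) ≤ 2 ^ 11 := pow_le_pow_right₀ (by norm_num) hk2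
    have h3 : (M : ℝ) ≤ (M : ℝ) ^ (j + 1) := by
      calc (M : ℝ) = (M : ℝ) ^ 1 := (pow_one _).symm
        _ ≤ _ := pow_le_pow_right₀ hMr (by omega)
    have h4 : (2 : ℝ) ^ (j + 4) * (M : ℝ) ^ (j + 1) * T ≤ 2 ^ 11 * z ^ (j + 3) * w := by
      apply mul_le_mul _ hT (by positivity) (by positivity)
      exact mul_le_mul h2 hMj (by positivity) (by positivity)
    have h5 : (M : ℝ) ≤ z ^ (j + 3) := h3.trans hMj
    have h6 : z ^ (j + 3) ≤ w * z ^ (j + 3) := by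
      have : 0 < z ^ (j + 3) := by positivity
      nlinarith
    nlinarith [show (0:ℝ) < w * z ^ (j + 3) by positivity]
  rw [← div_eq_mul_inv, div_le_iff₀ (by positivity)]
  have hw3 : 9 * 4096 * w ≤ w ^ (j + 3) := by
    have h1 : (192 : ℝ) ^ 2 ≤ w ^ 2 := pow_le_pow_left₀ (by norm_num) hw 2
    calc 9 * 4096 * w = (192 ^ 2) * w := by norm_num
      _ ≤ w ^ 2 * w := mul_le_mul_of_nonneg_right h1 hw0.le
      _ = w ^ 3 := by ring
      _ ≤ w ^ (j + 3) := pow_le_pow_right₀ (by linarith) (by omega)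
  calc (N : ℝ) ≤ 4096 * w * z ^ (j + 3) := hN'
    _ = (9 * 4096 * w) * z ^ (j + 3) / 9 := by ring
    _ ≤ w ^ (j + 3) * z ^ (j + 3) / 9 := by
      apply div_le_div_of_nonneg_right _ (by norm_num)
      exact mul_le_mul_of_nonneg_right hw3 (by positivity)
    _ = _ := by rw [mul_pow]; ring

/-- The degree condition in the box `[M, 2M)`. -/
lemma degree (h3 : DEG3) (hk : DEGK) {X T M : ℕ} {z w : ℝ} (hz : (108 : ℝ) ^ 3 ≤ z)
    (hw : 192 ≤ w) (hT : (T : ℝ) ≤ w) (hX : (X : ℝ) ≤ z ^ 10) (hM : z < 2 * M)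
    (hdiv : ∀ m : ℕ, 0 < m → m ≤ 4 * X ^ 2 → m.divisors.card ≤ T) (v : ℕ) :
    ∑ f ∈ Ed X M with v ∈ f, (((z * w)) ^ (f.card - 1))⁻¹ ≤ 1 := by
  classical
  have hz0 : 0 < z := by linarith [show (0:ℝ) < 108 ^ 3 by norm_num]
  have hw0 : 0 < w := by linarith
  have hM4 : 4 ≤ M := by
    have h1 : (8 : ℝ) < 2 * M := by linarith [show (8:ℝ) < 108 ^ 3 by norm_num]
    have h2 : (4 : ℝ) < M := by linarith
    exact_mod_cast h2.le
  set F := (Ed X M).filter (fun f => v ∈ f) with hF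
  have hmem : ∀ f ∈ F, ∃ n ∈ Bx X M, n.primeFactors = f ∧ v.Prime ∧ v ∣ n := by
    intro f hf
    rw [hF, mem_filter, Ed, mem_image] at hf
    obtain ⟨⟨n, hn, rfl⟩, hv⟩ := hf
    exact ⟨n, hn, rfl, Nat.prime_of_mem_primeFactors hv, Nat.dvd_of_mem_primeFactors hv⟩
  have hcard : ∀ f ∈ F, f.card ∈ Icc 3 11 := by
    intro f hf
    obtain ⟨n, hn, rfl, hv, hvn⟩ := hmem f hf
    rw [mem_Icc]
    refine ⟨carm_card (mem_Bx.mp hn).2.1, ?_⟩
    by_contra hlt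
    have h1 := pow_card_le hn
    have h2 : M ^ 12 ≤ X := (Nat.pow_le_pow_right (by omega) (by omega)).trans h1
    have h3 : ((M : ℝ)) ^ 12 ≤ X := by exact_mod_cast h2
    have h4 : (z / 2) ^ 12 ≤ (M : ℝ) ^ 12 := pow_le_pow_left₀ (by positivity) (by linarith) 12
    have h5 : (z / 2) ^ 12 ≤ z ^ 10 := h4.trans (h3.trans hX)
    have h6 : (z / 2) ^ 12 = z ^ 10 * (z ^ 2 / 4096) := by ring
    rw [h6] at h5
    have h7 : z ^ 10 * 1 < z ^ 10 * (z ^ 2 / 4096) := by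
      apply mul_lt_mul_of_pos_left _ (by positivity)
      rw [lt_div_iff₀ (by norm_num)]
      have : ((108 : ℝ) ^ 3) ^ 2 ≤ z ^ 2 := pow_le_pow_left₀ (by norm_num) hz 2
      linarith [show (1 * 4096 : ℝ) < (108 ^ 3) ^ 2 by norm_num]
    linarith
  rw [← sum_fiberwise_of_maps_to hcard]
  have hterm : ∀ k ∈ Icc 3 11, ∑ f ∈ F with f.card = k, (((z * w)) ^ (f.card - 1))⁻¹ ≤ 1 / 9 := by
    intro k hk'
    rw [mem_Icc] at hk'
    have h1 : ∑ f ∈ F with f.card = k, (((z * w)) ^ (f.card - 1))⁻¹ =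
        ((F.filter (fun f => f.card = k)).card : ℝ) * (((z * w)) ^ (k - 1))⁻¹ := by
      rw [← nsmul_eq_mul, ← sum_const]
      apply sum_congr rfl
      intro f hf
      rw [(mem_filter.mp hf).2]
    rw [h1]
    by_cases hemp : (F.filter (fun f => f.card = k)).card = 0
    · rw [hemp]; norm_num
    obtain ⟨f0, hf0⟩ := card_pos.mp (Nat.pos_of_ne_zero hemp)
    obtain ⟨n0, hn0, hn0f, hvp, hvn0⟩ := hmem f0 (mem_filter.mp hf0).1
    have hMk : M ^ k ≤ X := by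
      have := pow_card_le hn0
      rw [hn0f, (mem_filter.mp hf0).2] at this
      exact this
    have hMkr : (M : ℝ) ^ k ≤ z ^ 10 := by
      have : ((M ^ k : ℕ) : ℝ) ≤ X := by exact_mod_cast hMk
      push_cast at this
      exact this.trans hX
    have hvM := (mem_Bx.mp hn0).2.2 v hvp hvn0
    have hMX : M ≤ X := le_trans (Nat.le_self_pow (by omega) M) hMk
    have hX0 : 0 < X := by omega
    -- the set of numbers
    set S := (Bx X M).filter (fun n => v ∣ n ∧ n.primeFactors.card = k) with hS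
    have hcardS : (F.filter (fun f => f.card = k)).card ≤ S.card := by
      have : F.filter (fun f => f.card = k) ⊆ S.image Nat.primeFactors := by
        intro f hf
        obtain ⟨hf1, hf2⟩ := mem_filter.mp hf
        obtain ⟨n, hn, hnf, -, hvn⟩ := hmem f hf1
        rw [mem_image]
        refine ⟨n, ?_, hnf⟩
        rw [hS, mem_filter]
        exact ⟨hn, hvn, by rw [hnf]; exact hf2⟩
      exact (card_le_card this).trans card_image_le
    have hSbox : ∀ n ∈ S, InBox M v k n := by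
      intro n hn
      rw [hS, mem_filter] at hn
      obtain ⟨h1, h2, h3⟩ := hn
      rw [mem_Bx] at h1
      exact ⟨h1.2.1, h2, h3, h1.2.2⟩
    have hv2 := hvp.two_le
    rcases Nat.lt_or_ge 3 k with hk3 | hk3
    · have hT' : (v - 1).divisors.card ≤ T := by
        apply hdiv _ (by omega)
        have : X ≤ X ^ 2 := Nat.le_self_pow (by norm_num) X
        omega
      have hN := hk M T v k hM4 (by omega) hT' hvp hvM.1 hvM.2 S hSbox
      have hT1 : 1 ≤ T := by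
        have : 0 < (v - 1).divisors.card := card_pos.mpr ⟨1, by simp; omega⟩
        omega
      exact boundk hz hw hT hT1 (by omega) hk'.2 hMkr (by omega) (hcardS.trans hN)
    · have hk0 : k = 3 := by omega
      subst hk0
      have hN := h3 M T v hM4 (fun m hm1 hm2 => hdiv m hm1 (hm2.trans (by
        have := Nat.pow_le_pow_left hMX 2
        omega))) hvp hvM.1 hvM.2 S hSbox
      exact bound3 hz hw hT hMkr (by omega) (hcardS.trans hN)
  calc ∑ k ∈ Icc 3 11, ∑ f ∈ F with f.card = k, (((z * w)) ^ (f.card - 1))⁻¹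
      ≤ ∑ k ∈ Icc 3 11, (1 / 9 : ℝ) := sum_le_sum hterm
    _ = 1 := by
      rw [sum_const, Nat.card_Icc]
      norm_num

/-- The discrete form of the result. -/
theorem discrete (h1 : COL) (h3 : DEG3) (hk : DEGK) {X T K : ℕ} {z w : ℝ}
    (hz : (108 : ℝ) ^ 3 ≤ z) (hw : 192 ≤ w) (hT : (T : ℝ) ≤ w) (hX : (X : ℝ) ≤ z ^ 10)
    (hdiv : ∀ m : ℕ, 0 < m → m ≤ 4 * X ^ 2 → m.divisors.card ≤ T) (hK : 2 * (z * w) ≤ K) :
    Colourable X (⌈z⌉₊ + (Nat.log 2 X + 1) * K) := by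
  have hz0 : 0 < z := by linarith [show (0:ℝ) < 108 ^ 3 by norm_num]
  have hw0 : 0 < w := by linarith
  have hK0 : 0 < K := by
    have : (0 : ℝ) < K := lt_of_lt_of_le (by positivity) hK
    exact_mod_cast this
  apply combine X _ K hK0
  intro e he
  have hM : z < 2 * ((2 ^ e : ℕ) : ℝ) := by
    have h2 : z ≤ (⌈z⌉₊ : ℝ) := Nat.le_ceil z
    have h3 : ((⌈z⌉₊ : ℕ) : ℝ) < ((2 * 2 ^ e : ℕ) : ℝ) := by exact_mod_cast he
    push_cast at h3 ⊢
    linarith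
  refine h1 (range (X + 1)) (Ed X (2 ^ e)) K (z * w) (by positivity) hK ?_ ?_
  · intro f hf
    rw [Ed, mem_image] at hf
    obtain ⟨n, hn, rfl⟩ := hf
    refine ⟨by have := carm_card (mem_Bx.mp hn).2.1; omega, ?_⟩
    intro p hp
    rw [mem_range]
    have h2 := Nat.le_of_mem_primeFactors hp
    have h3 := (mem_Bx.mp hn).1.2
    omega
  · intro v _
    exact degree h3 hk hz hw hT hX hM hdiv v

end Pool.Agent.W2helper16.RW
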