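import Mathlib
import Pool.Agent.W2helper16.RW.Asm2
import Pool.Agent.H510R2.Div

/-!
Asymptotics.
-/

set_option autoImplicit false

namespace Pool.Agent.W2helper16.RW

open Filter Real

/-- Final asymptotic statement: about `x ^ (1/10)` colours suffice. -/
theorem colours (h1 : COL) (h3 : DEG3) (hk : DEGK) (ε : ℝ) (hε : 0 < ε) :
    ∀ᶠ x : ℝ in atTop, ∃ K : ℕ, 1 ≤ K ∧ Colourable ⌊x⌋₊ K ∧ (K : ℝ) ≤ x ^ (1 / 10 + ε) := by
  set δ : ℝ := ε / 2 with hδ
  have hδ0 : 0 < δ := by positivity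
  obtain ⟨E, hE, hd⟩ := Pool.Agent.H510R2.divisor_bound (δ / 4) (by positivity)
  have e1 : ∀ᶠ x : ℝ in atTop, 5 + 6 * Real.log x ≤ x ^ δ := by
    have hl := (isLittleO_log_rpow_atTop hδ0).bound (by norm_num : (0 : ℝ) < 1 / 12)
    filter_upwards [hl, (tendsto_rpow_atTop hδ0).eventually_ge_atTop 10, eventually_ge_atTop 1]
      with x hx1 hx2 hx3
    rw [Real.norm_of_nonneg (Real.log_nonneg hx3), Real.norm_of_nonneg (by positivity)] at hx1
    linarith
  have e2 : ∀ᶠ x : ℝ in atTop, E * (4 : ℝ) ^ (δ / 4) ≤ x ^ (δ / 2) :=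
    (tendsto_rpow_atTop (by positivity)).eventually_ge_atTop _
  have e3 : ∀ᶠ x : ℝ in atTop, (192 : ℝ) ≤ x ^ δ :=
    (tendsto_rpow_atTop hδ0).eventually_ge_atTop _
  have e4 : ∀ᶠ x : ℝ in atTop, ((108 : ℝ)) ^ 3 ≤ x ^ (1 / 10 : ℝ) :=
    (tendsto_rpow_atTop (by norm_num)).eventually_ge_atTop _
  filter_upwards [e1, e2, e3, e4, eventually_ge_atTop 1] with x hx1 hx2 hx3 hx4 hx5
  have hx0 : 0 < x := by linarith
  set z := x ^ (1 / 10 : ℝ) with hz
  set w := x ^ δ with hw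
  set X := ⌊x⌋₊ with hX
  have hz0 : 0 < z := Real.rpow_pos_of_pos hx0 _
  have hz1 : 1 ≤ z := Real.one_le_rpow hx5 (by norm_num)
  have hw1 : 1 ≤ w := by linarith
  have hw0 : 0 < w := by linarith
  have hXx : (X : ℝ) ≤ x := Nat.floor_le hx0.le
  have hX1 : 1 ≤ X := by rw [hX]; exact Nat.le_floor (by simpa using hx5)
  have hz10 : z ^ 10 = x := by
    rw [hz, ← Real.rpow_natCast, ← Real.rpow_mul hx0.le]
    norm_num
  have hdiv : ∀ m : ℕ, 0 < m → m ≤ 4 * X ^ 2 → m.divisors.card ≤ ⌊w⌋₊ := by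
    intro m hm1 hm2
    apply Nat.le_floor
    have hm3 : (m : ℝ) ≤ 4 * x ^ 2 := by
      have h5 : (m : ℝ) ≤ ((4 * X ^ 2 : ℕ) : ℝ) := by exact_mod_cast hm2
      push_cast at h5
      have h6 : (X : ℝ) ^ 2 ≤ x ^ 2 := pow_le_pow_left₀ (by positivity) hXx 2
      linarith
    calc (m.divisors.card : ℝ) ≤ E * (m : ℝ) ^ (δ / 4) := by
          exact hd m hm1
      _ ≤ E * (4 * x ^ 2) ^ (δ / 4) := by
          apply mul_le_mul_of_nonneg_left _ hE.le
          exact Real.rpow_le_rpow (by positivity) hm3 (by positivity)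
      _ = E * (4 : ℝ) ^ (δ / 4) * x ^ (δ / 2) := by
          rw [Real.mul_rpow (by norm_num) (by positivity), ← Real.rpow_natCast x 2,
            ← Real.rpow_mul hx0.le, mul_assoc]
          congr 3
          push_cast
          ring
      _ ≤ x ^ (δ / 2) * x ^ (δ / 2) := mul_le_mul_of_nonneg_right hx2 (by positivity)
      _ = w := by rw [← Real.rpow_add hx0, hw]; congr 1; ring
  have hK : 2 * (z * w) ≤ ((⌈2 * (z * w)⌉₊ : ℕ) : ℝ) := Nat.le_ceil _
  have hcol := discrete h1 h3 hk (X := X) (T := ⌊w⌋₊) (K := ⌈2 * (z * w)⌉₊) hx4 hx3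
    (Nat.floor_le hw0.le) (by rw [hz10]; exact hXx) hdiv hK
  refine ⟨_, ?_, hcol, ?_⟩
  · have : 0 < ⌈z⌉₊ := Nat.ceil_pos.mpr hz0
    omega
  · have hlog0 : 0 ≤ Real.log x := Real.log_nonneg hx5
    have h5 : ((Nat.log 2 X : ℕ) : ℝ) ≤ 2 * Real.log x := by
      have h6 : 2 ^ Nat.log 2 X ≤ X := Nat.pow_log_le_self 2 (by omega)
      have h7 : ((2 : ℝ)) ^ (Nat.log 2 X) ≤ x := by
        have : ((2 ^ Nat.log 2 X : ℕ) : ℝ) ≤ X := by exact_mod_cast h6
        push_cast at this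
        exact this.trans hXx
      have h8 := Real.log_le_log (by positivity) h7
      rw [Real.log_pow] at h8
      have h9 := Real.log_two_gt_d9
      have h10 : (0 : ℝ) ≤ (Nat.log 2 X : ℕ) := by positivity
      nlinarith
    have hzw1 : 1 ≤ z * w := by nlinarith
    have hzw : z ≤ z * w := by nlinarith
    have h6 : ((⌈2 * (z * w)⌉₊ : ℕ) : ℝ) ≤ 3 * (z * w) := by
      have := (Nat.ceil_lt_add_one (by positivity : 0 ≤ 2 * (z * w))).le
      linarith
    have h7 : ((⌈z⌉₊ : ℕ) : ℝ) ≤ 2 * (z * w) := by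
      have := (Nat.ceil_lt_add_one hz0.le).le
      linarith
    push_cast
    have h8 : (((Nat.log 2 X : ℕ) : ℝ) + 1) * ((⌈2 * (z * w)⌉₊ : ℕ) : ℝ) ≤
        (2 * Real.log x + 1) * (3 * (z * w)) := by
      apply mul_le_mul (by linarith) h6 (by positivity) (by positivity)
    calc ((⌈z⌉₊ : ℕ) : ℝ) + (((Nat.log 2 X : ℕ) : ℝ) + 1) * ((⌈2 * (z * w)⌉₊ : ℕ) : ℝ)
        ≤ 2 * (z * w) + (2 * Real.log x + 1) * (3 * (z * w)) := add_le_add h7 h8
      _ = (z * w) * (5 + 6 * Real.log x) := by ring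
      _ ≤ (z * w) * w := mul_le_mul_of_nonneg_left hx1 (by positivity)
      _ = x ^ (1 / 10 + ε) := by
        rw [hz, hw, ← Real.rpow_add hx0, ← Real.rpow_add hx0]
        congr 1
        rw [hδ]; ring

end Pool.Agent.W2helper16.RW
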