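import Pool.Agent.W2helper60.RW.DegThree

/-! Piece DEG3 (proof by helper60 in `Pool.Agent.W2helper60.RW.DegThree`). -/

set_option autoImplicit false

namespace Pool.Agent.W2helper16.RW

theorem deg3 : DEG3 := Pool.Agent.W2helper60.RW.deg3

end Pool.Agent.W2helper16.RW
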